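import Pool.Agent.H146Z.CmMain

set_option autoImplicit false

namespace Pool.Agent.Results.MP_5aaff8_an.RankJump

open Pool.Agent.H146Z.Cm Set

/-- For all `n, m ≥ 2` and the obstacle `Mᶜ` equal to the closed unit ball of `ℝ^m`, there is a
minimizing constraint map on a connected open subset of `ℝ^n` whose differential has rank at most
one on a nonempty open set and rank at least two on another nonempty open set. -/
theorem result (n m : ℕ) (hn : 2 ≤ n) (hm : 2 ≤ m) :
    ∃ (Ω : Set (Euc n)) (u : Euc n → Euc m) (G : Euc n → Matrix (Fin m) (Fin n) ℝ),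
      IsOpen Ω ∧ IsConnected Ω ∧ IsMinimizing Ω (Metric.closedBall (0 : Euc m) 1)ᶜ u G ∧
      (∃ U : Set (Euc n), IsOpen U ∧ U.Nonempty ∧ U ⊆ Ω ∧ ∀ x ∈ U, (G x).rank ≤ 1) ∧
      (∃ U : Set (Euc n), IsOpen U ∧ U.Nonempty ∧ U ⊆ Ω ∧ ∀ x ∈ U, 2 ≤ (G x).rank) := by
  obtain ⟨n, rfl⟩ := Nat.exists_eq_add_of_le' hn
  obtain ⟨m, rfl⟩ := Nat.exists_eq_add_of_le' hm
  have hc : Continuous fun y : Euc (n + 2) => y 0 := (contDiff_coord 0 (n := 0)).continuous
  have hB : ∀ c : ℝ, |c| < 1 / 2 → EuclideanSpace.single (0 : Fin (n + 2)) c ∈ B (n + 2) := by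
    intro c h
    simpa [B] using h
  refine ⟨B (n + 2), uu n m, GG n m, Metric.isOpen_ball,
    (convex_ball _ _).isConnected (Metric.nonempty_ball.2 (by norm_num)), uu_min,
    ⟨B (n + 2) ∩ {x | x 0 < 0}, Metric.isOpen_ball.inter (isOpen_lt hc continuous_const),
      ⟨_, hB (-(1 / 4)) (by rw [abs_neg, abs_of_pos] <;> norm_num), by simp⟩, inter_subset_left,
      fun x hx => rank_le hx.2⟩,
    ⟨B (n + 2) ∩ {x | 0 < x 0}, Metric.isOpen_ball.inter (isOpen_lt continuous_const hc),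
      ⟨_, hB (1 / 4) (by rw [abs_of_pos] <;> norm_num), by simp⟩, inter_subset_left,
      fun x hx => rank_ge hx.2⟩⟩

end Pool.Agent.Results.MP_5aaff8_an.RankJump
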